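import Pool.Agent.H44.TD.Def

set_option autoImplicit false

/-!
# [H44 TD Bod] The sets are compact, convex, semi-algebraic (MP_ce02af_co)
-/

namespace Pool.Agent.H44.TD

open Pool.Agent.H44.TB

variable {n M : ℕ}

/-- a quadratic function without mixed terms -/
noncomputable def qd (c : Fin 7 → ℝ) (x : E3) : ℝ :=
  c 0 * (x 0) ^ 2 + c 1 * (x 1) ^ 2 + c 2 * (x 2) ^ 2 + c 3 * x 0 + c 4 * x 1 + c 5 * x 2 + c 6

/-- the set is given by seven inequalities with convex functions `qd` -/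
def Q7 (S : Set E3) : Prop :=
  ∃ f : Fin 7 → Fin 7 → ℝ, (∀ i, 0 ≤ f i 0 ∧ 0 ≤ f i 1 ∧ 0 ≤ f i 2) ∧
    ∀ x, x ∈ S ↔ ∀ i, qd (f i) x ≤ 0

private theorem sq_conv {a b u v : ℝ} (ha : 0 ≤ a) (hb : 0 ≤ b) (hab : a + b = 1) :
    (a * u + b * v) ^ 2 ≤ a * u ^ 2 + b * v ^ 2 := by
  have h : a * u ^ 2 + b * v ^ 2 - (a * u + b * v) ^ 2 = a * b * (u - v) ^ 2 := by
    have hb' : b = 1 - a := by linarith
    rw [hb']; ring
  have h2 : 0 ≤ a * b * (u - v) ^ 2 := by positivity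
  linarith

private theorem qd_conv {c : Fin 7 → ℝ} (h : 0 ≤ c 0 ∧ 0 ≤ c 1 ∧ 0 ≤ c 2) {x y : E3} {a b : ℝ}
    (ha : 0 ≤ a) (hb : 0 ≤ b) (hab : a + b = 1) :
    qd c (a • x + b • y) ≤ a * qd c x + b * qd c y := by
  have e : ∀ i : Fin 3, (a • x + b • y) i = a * x i + b * y i := fun i => by simp
  unfold qd
  rw [e, e, e]
  have h0 := mul_le_mul_of_nonneg_left (sq_conv (u := x 0) (v := y 0) ha hb hab) h.1
  have h1 := mul_le_mul_of_nonneg_left (sq_conv (u := x 1) (v := y 1) ha hb hab) h.2.1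
  have h2 := mul_le_mul_of_nonneg_left (sq_conv (u := x 2) (v := y 2) ha hb hab) h.2.2
  have h3 : a * c 6 + b * c 6 = c 6 := by rw [← add_mul, hab, one_mul]
  nlinarith

theorem Q7.convex {S : Set E3} (h : Q7 S) : Convex ℝ S := by
  obtain ⟨f, h0, h1⟩ := h
  intro x hx y hy a b ha hb hab
  rw [h1] at hx hy ⊢
  intro i
  have h2 := qd_conv (h0 i) (x := x) (y := y) ha hb hab
  have h3 := mul_nonneg ha (neg_nonneg.2 (hx i))
  have h4 := mul_nonneg hb (neg_nonneg.2 (hy i))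
  nlinarith

theorem Q7.isClosed {S : Set E3} (h : Q7 S) : IsClosed S := by
  obtain ⟨f, -, h1⟩ := h
  have hS : S = ⋂ i, {x : E3 | qd (f i) x ≤ 0} := by
    ext x
    rw [h1, Set.mem_iInter]
    exact Iff.rfl
  rw [hS]
  refine isClosed_iInter fun i => isClosed_le ?_ continuous_const
  unfold qd
  fun_prop

open MvPolynomial in
private theorem basic7 (c : Fin 7 → ℝ) : IsBasic 2 {x : E3 | 0 < qd c x} := by
  have hq : ∀ (u : ℝ) (i : Fin 3), (C u * X i ^ 2 : MvPolynomial (Fin 3) ℝ).totalDegree ≤ 2 := by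
    intro u i
    refine (totalDegree_mul _ _).trans ?_
    rw [totalDegree_C, totalDegree_X_pow]
  have hl : ∀ (u : ℝ) (i : Fin 3), (C u * X i : MvPolynomial (Fin 3) ℝ).totalDegree ≤ 2 := by
    intro u i
    refine (totalDegree_mul _ _).trans ?_
    rw [totalDegree_C, totalDegree_X]
    norm_num
  have hadd : ∀ p q : MvPolynomial (Fin 3) ℝ, p.totalDegree ≤ 2 → q.totalDegree ≤ 2 →
      (p + q).totalDegree ≤ 2 := fun p q hp hq' => (totalDegree_add p q).trans (max_le hp hq')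
  refine ⟨C (c 0) * X 0 ^ 2 + C (c 1) * X 1 ^ 2 + C (c 2) * X 2 ^ 2 + C (c 3) * X 0 +
    C (c 4) * X 1 + C (c 5) * X 2 + C (c 6), ?_, Or.inr ?_⟩
  · refine hadd _ _ (hadd _ _ (hadd _ _ (hadd _ _ (hadd _ _ (hadd _ _ (hq _ _) (hq _ _))
      (hq _ _)) (hl _ _)) (hl _ _)) (hl _ _)) ?_
    rw [totalDegree_C]
    norm_num
  · simp only [map_add, map_mul, map_pow, eval_X, eval_C, qd]

theorem Q7.complexity {S : Set E3} (h : Q7 S) : HasComplexity 7 2 S := by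
  obtain ⟨f, -, h1⟩ := h
  refine ⟨fun i => {x : E3 | 0 < qd (f i) x}, fun P => ∀ i, ¬ P i, fun i => basic7 _, ?_⟩
  ext x
  rw [h1]
  exact forall_congr' fun i => not_lt.symm

private theorem bdd_of {S : Set E3} (K : ℝ) (h : ∀ x ∈ S, |x 0| ≤ K ∧ |x 1| ≤ K ∧ |x 2| ≤ K) :
    Bornology.IsBounded S := by
  refine (Metric.isBounded_closedBall (x := (0 : E3)) (r := 3 * |K|)).subset ?_
  intro x hx
  obtain ⟨h0, h1, h2⟩ := h x hx
  have hK : 0 ≤ K := (abs_nonneg _).trans h0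
  rw [mem_closedBall_zero_iff, EuclideanSpace.norm_eq, abs_of_nonneg hK]
  refine Real.sqrt_le_iff.2 ⟨by positivity, ?_⟩
  simp only [Fin.sum_univ_three, Real.norm_eq_abs]
  have k0 := pow_le_pow_left₀ (abs_nonneg _) h0 2
  have k1 := pow_le_pow_left₀ (abs_nonneg _) h1 2
  have k2 := pow_le_pow_left₀ (abs_nonneg _) h2 2
  nlinarith [sq_nonneg K]

private theorem forall7 {P : Fin 7 → Prop} :
    (∀ i, P i) ↔ P 0 ∧ P 1 ∧ P 2 ∧ P 3 ∧ P 4 ∧ P 5 ∧ P 6 := by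
  constructor
  · intro h
    exact ⟨h 0, h 1, h 2, h 3, h 4, h 5, h 6⟩
  · rintro ⟨h0, h1, h2, h3, h4, h5, h6⟩ i
    fin_cases i
    exacts [h0, h1, h2, h3, h4, h5, h6]

theorem Q7_sA (n j : ℕ) : Q7 (sA n j) := by
  have hR := dR_pos (n := n)
  refine ⟨![![0, 0, 0, 0, 0, -(dG n / dR n), -dY n j],
    ![0, 0, 1 / (4 * dR n ^ 2), -(1 / dR n), 0, dG n * j / dR n, 0],
    ![0, 0, 0, -(1 / dR n), 0, dG n * j / dR n - 2 * dY n j / dR n, dY n j - 2],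
    ![0, 0, 0, 1 / dR n, 0, dY n j / (2 * dR n) - dG n * j / dR n, -dY n j - 2],
    ![0, 0, 0, 0, 1, 0, -dE n], ![0, 0, 0, 0, -1, 0, -dE n], ![0, 0, 0, 0, 0, 0, 0]], ?_, ?_⟩
  · intro i
    fin_cases i <;> simp [hR.le]
  · intro x
    rw [forall7]
    simp only [sA, PP, Set.mem_ofPred_eq, qd, Matrix.cons_val, abs_le]
    have e1 : (x 2 / dR n) ^ 2 / 4 = 1 / (4 * dR n ^ 2) * x 2 ^ 2 := by field_simp
    have e2 : x 0 / dR n = 1 / dR n * x 0 := by ring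
    have e3 : dG n * (x 2 / dR n) = dG n / dR n * x 2 := by ring
    have e4 : dG n * j * (x 2 / dR n) = dG n * j / dR n * x 2 := by ring
    have e5 : dY n j * (1 - 2 * (x 2 / dR n)) = dY n j - 2 * dY n j / dR n * x 2 := by ring
    have e6 : dY n j * (1 - x 2 / dR n / 2) = dY n j - dY n j / (2 * dR n) * x 2 := by
      field_simp
    rw [e1, e2, e3, e4, e5, e6]
    constructor
    · rintro ⟨⟨h1, h2, h3, h4⟩, h5, h6⟩
      refine ⟨?_, ?_, ?_, ?_, ?_, ?_, ?_⟩ <;> linarith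
    · rintro ⟨h1, h2, h3, h4, h5, h6, -⟩
      refine ⟨⟨?_, ?_, ?_, ?_⟩, ?_, ?_⟩ <;> linarith

theorem Q7_sB (n k : ℕ) : Q7 (sB n k) := by
  refine ⟨![![0, 0, 0, 0, 0, -dG n, -dY n k],
    ![0, 0, 1 / 4, 0, -1, dG n * k, 0],
    ![0, 0, 0, 0, -1, dG n * k - 2 * dY n k, dY n k - 2],
    ![0, 0, 0, 0, 1, dY n k / 2 - dG n * k, -dY n k - 2],
    ![0, 0, 0, 1, 0, 0, -(2 * dR n)], ![0, 0, 0, -1, 0, 0, -(2 * dR n)],
    ![0, 0, 0, 0, 0, 0, 0]], ?_, ?_⟩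
  · intro i
    fin_cases i <;> simp
  · intro x
    rw [forall7]
    simp only [sB, PP, Set.mem_ofPred_eq, qd, Matrix.cons_val, abs_le]
    constructor
    · rintro ⟨⟨h1, h2, h3, h4⟩, h5, h6⟩
      refine ⟨?_, ?_, ?_, ?_, ?_, ?_, ?_⟩ <;> linarith
    · rintro ⟨h1, h2, h3, h4, h5, h6, -⟩
      refine ⟨⟨?_, ?_, ?_, ?_⟩, ?_, ?_⟩ <;> linarith

theorem Q7_sF (n l : ℕ) : Q7 (sF n l) := by
  refine ⟨![![0, 0, 0, 0, 0, 1, -(dζ n * l)], ![0, 0, 0, 0, 0, -1, dζ n * l],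
    ![0, 0, 0, (1 - dr n l) / dR n, dr n l, 0, dr n l * (1 - dr n l)],
    ![0, 0, 0, -1, 0, 0, -dR n], ![0, 0, 0, 1, 0, 0, 0],
    ![0, 0, 0, 0, -1, 0, -1], ![0, 0, 0, 0, 1, 0, 0]], ?_, ?_⟩
  · intro i
    fin_cases i <;> simp
  · intro x
    rw [forall7]
    simp only [sF, Set.mem_ofPred_eq, qd, Matrix.cons_val]
    have e1 : (1 - dr n l) * (x 0 / dR n) = (1 - dr n l) / dR n * x 0 := by ring
    rw [e1]
    constructor
    · rintro ⟨h1, h2, h3, h4, h5, h6⟩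
      refine ⟨?_, ?_, ?_, ?_, ?_, ?_, ?_⟩ <;> linarith
    · rintro ⟨h1, h2, h3, h4, h5, h6, h7⟩
      refine ⟨?_, ?_, ?_, ?_, ?_, ?_⟩ <;> linarith

theorem Q7_sH (n m : ℕ) : Q7 (sH n m) := by
  refine ⟨![![0, 0, 0, 1, 1, -dw n m, -dC n m], ![0, 0, 0, -1, -1, dw n m, dC n m],
    ![0, 0, 0, 0, 0, -1, -(2 * dC n m / dδ n)],
    ![0, 0, 0, 0, 0, 1, -dC n m], ![0, 0, 0, 1, 0, 0, -dD n m],
    ![0, 0, 0, -1, 0, 0, -dD n m], ![0, 0, 0, 0, 0, 0, 0]], ?_, ?_⟩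
  · intro i
    fin_cases i <;> simp
  · intro x
    rw [forall7]
    simp only [sH, Set.mem_ofPred_eq, qd, Matrix.cons_val, abs_le]
    constructor
    · rintro ⟨h1, h2, h3, h4, h5⟩
      refine ⟨?_, ?_, ?_, ?_, ?_, ?_, ?_⟩ <;> linarith
    · rintro ⟨h1, h2, h3, h4, h5, h6, -⟩
      refine ⟨?_, ?_, ?_, ?_, ?_⟩ <;> linarith

theorem dfam_Q7 (i : Idx n M) : Q7 (dfam n M i) := by
  rcases i with (j | k) | (l | m)
  · exact Q7_sA n j
  · exact Q7_sB n k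
  · exact Q7_sF n l
  · exact Q7_sH n m

private theorem PP_bdd {n j : ℕ} {u z : ℝ} (h : PP n j u z) :
    |z| ≤ 3 + dY n j ∧
      |u| ≤ dY n j * (1 + (3 + dY n j)) + 2 + dG n * j * (3 + dY n j) := by
  obtain ⟨h1, h2, h3, h4⟩ := h
  have hY := dY_ge (n := n) j
  have hG := dG_ge (n := n)
  have hj : (0 : ℝ) ≤ j := Nat.cast_nonneg j
  have hz1 : z ≤ 3 := by
    by_contra hc
    push Not at hc
    nlinarith [sq_nonneg z]
  have hz2 : -dY n j ≤ z := by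
    by_contra hc
    push Not at hc
    nlinarith
  have hz : |z| ≤ 3 + dY n j := abs_le.2 ⟨by linarith, by linarith⟩
  refine ⟨hz, ?_⟩
  have hGj : 0 ≤ dG n * j := by positivity
  have h5 : |dG n * j * z| ≤ dG n * j * (3 + dY n j) := by
    rw [abs_mul, abs_of_nonneg hGj]
    exact mul_le_mul_of_nonneg_left hz hGj
  have h6 : 0 ≤ u - dG n * j * z := le_trans (by positivity) h2
  have h7 : u - dG n * j * z ≤ dY n j * (1 + (3 + dY n j)) + 2 := by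
    refine h4.trans ?_
    have : dY n j * (1 - z / 2) ≤ dY n j * (1 + (3 + dY n j)) := by
      apply mul_le_mul_of_nonneg_left _ (by linarith)
      linarith
    linarith
  have h8 : u = (u - dG n * j * z) + dG n * j * z := by ring
  rw [h8]
  refine (abs_add_le _ _).trans ?_
  rw [abs_of_nonneg h6]
  linarith

theorem dfam_compact (i : Idx n M) : IsCompact (dfam n M i) := by
  apply Metric.isCompact_of_isClosed_isBounded (dfam_Q7 i).isClosed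
  have hR := dR_pos (n := n)
  rcases i with (j | k) | (l | m)
  · have hY := dY_pos (n := n) j
    have hG := dG_pos (n := n)
    have ha := da_pos (n := n)
    have hE : 0 ≤ dE n := by unfold dE; positivity
    obtain ⟨Z, hZ⟩ : ∃ Z : ℝ, Z = 3 + dY n j := ⟨_, rfl⟩
    obtain ⟨U, hU⟩ : ∃ U : ℝ, U = dY n j * (1 + (3 + dY n j)) + 2 +
      dG n * (j : ℕ) * (3 + dY n j) := ⟨_, rfl⟩
    have hZ0 : 0 ≤ Z := by rw [hZ]; positivity
    have hU0 : 0 ≤ U := by rw [hU]; positivity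
    refine bdd_of (dR n * Z + dR n * U + dE n) ?_
    rintro x ⟨hP, h1⟩
    obtain ⟨k1, k2⟩ := PP_bdd hP
    rw [← hZ] at k1
    rw [← hU] at k2
    rw [abs_div, abs_of_pos hR, div_le_iff₀ hR] at k1 k2
    have p1 : 0 ≤ dR n * Z := by positivity
    have p2 : 0 ≤ dR n * U := by positivity
    refine ⟨?_, ?_, ?_⟩ <;> linarith
  · have hY := dY_pos (n := n) k
    have hG := dG_pos (n := n)
    obtain ⟨Z, hZ⟩ : ∃ Z : ℝ, Z = 3 + dY n k := ⟨_, rfl⟩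
    obtain ⟨U, hU⟩ : ∃ U : ℝ, U = dY n k * (1 + (3 + dY n k)) + 2 +
      dG n * (k : ℕ) * (3 + dY n k) := ⟨_, rfl⟩
    have hZ0 : 0 ≤ Z := by rw [hZ]; positivity
    have hU0 : 0 ≤ U := by rw [hU]; positivity
    refine bdd_of (Z + U + 2 * dR n) ?_
    rintro x ⟨hP, h1⟩
    obtain ⟨k1, k2⟩ := PP_bdd hP
    rw [← hZ] at k1
    rw [← hU] at k2
    refine ⟨?_, ?_, ?_⟩ <;> linarith
  · have hζ := dζ_pos (n := n)
    have hl : (0 : ℝ) ≤ (l : ℕ) := Nat.cast_nonneg _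
    have p1 : 0 ≤ dζ n * (l : ℕ) := by positivity
    refine bdd_of (dζ n * (l : ℕ) + dR n + 1) ?_
    rintro x ⟨h1, -, h2, h3, h4, h5⟩
    refine ⟨abs_le.2 ⟨by linarith, by linarith⟩, abs_le.2 ⟨by linarith, by linarith⟩, ?_⟩
    rw [h1, abs_of_nonneg p1]
    linarith
  · have hC := dC_pos (n := n) (m : ℕ)
    have hδ := dδ_pos (n := n)
    obtain ⟨T, hT⟩ : ∃ T : ℝ, T = 2 * dC n (m : ℕ) / dδ n + dC n (m : ℕ) := ⟨_, rfl⟩
    have hT1 : 0 ≤ 2 * dC n (m : ℕ) / dδ n := by positivity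
    have hT0 : 0 ≤ T := by rw [hT]; positivity
    refine bdd_of (dC n (m : ℕ) + |dw n (m : ℕ)| * T + |dD n (m : ℕ)| + T) ?_
    rintro x ⟨h1, h2, h3, h4⟩
    have h5 : |x 2| ≤ T := by
      rw [hT]
      exact abs_le.2 ⟨by linarith, by linarith⟩
    have h6 : |x 0| ≤ |dD n (m : ℕ)| := h4.trans (le_abs_self _)
    have p1 : 0 ≤ |dw n (m : ℕ)| * T := by positivity
    have p2 := abs_nonneg (dD n (m : ℕ))
    have h7 : |dw n (m : ℕ) * x 2| ≤ |dw n (m : ℕ)| * T := by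
      rw [abs_mul]
      exact mul_le_mul_of_nonneg_left h5 (abs_nonneg _)
    refine ⟨by linarith, ?_, by linarith⟩
    have h8 : x 1 = dC n (m : ℕ) + dw n (m : ℕ) * x 2 - x 0 := by linarith
    rw [h8]
    refine (abs_sub _ _).trans ?_
    have h9 := abs_add_le (dC n (m : ℕ)) (dw n (m : ℕ) * x 2)
    rw [abs_of_pos hC] at h9
    linarith

theorem dfam_convex (i : Idx n M) : Convex ℝ (dfam n M i) := (dfam_Q7 i).convex

/-- pad with the polynomial `0`; at most seven inequalities of degree `≤ 2` are needed -/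
theorem dfam_complexity (i : Idx n M) : HasComplexity 7 2 (dfam n M i) := (dfam_Q7 i).complexity

end Pool.Agent.H44.TD
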