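import Pool.Agent.H44.TD.Dis
import Pool.Agent.H44.TD.Bod

set_option autoImplicit false

/-!
# [H44 TD Cnt] Exactly `N` pairwise disjoint sets (MP_ce02af_co)
-/

namespace Pool.Agent.H44.TD

open Pool.Agent.H44.TB

/-- The final statement for `N` sets. -/
def DisjointSets (N : ℕ) : Prop :=
  ∃ F : Fin N → Set E3, (∀ i, IsCompact (F i) ∧ Convex ℝ (F i) ∧ HasComplexity 7 2 (F i)) ∧
    (∀ i j, i ≠ j → Disjoint (F i) (F j)) ∧
    (N : ℕ∞) ^ 3 ≤ 1000 * ENat.card (ConnectedComponents (transversalSpace F))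

theorem disjoint_of (hcomp : ∀ {n M : ℕ}, 2 ≤ n → 2 * n ≤ M + 1 → M ≤ 2 * n + 4 →
      ((n * (n * (n - 1)) : ℕ) : ℕ∞) ≤
        ENat.card (ConnectedComponents (transversalSpace (dfam n M))))
    {N : ℕ} (hN : 10 ≤ N) : DisjointSets N := by
  set n := N / 5 with hn
  set M := N - 3 * n with hM
  have hn2 : 2 ≤ n := by omega
  have hMn : 2 * n ≤ M := by omega
  have hMn2 : M ≤ 2 * n + 4 := by omega
  have hcard : Fintype.card (Idx n M) = N := by
    simp only [Idx, Fintype.card_sum, Fintype.card_fin]; omega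
  let e : Fin N ≃ Idx n M := (Fintype.equivFinOfCardEq hcard).symm
  have htr : transversalSpace (fun i => dfam n M (e i)) = transversalSpace (dfam n M) := by
    ext L
    constructor
    · intro h i
      have := h (e.symm i)
      simpa using this
    · intro h i
      exact h (e i)
  refine ⟨fun i => dfam n M (e i), fun i => ⟨dfam_compact _, dfam_convex _, dfam_complexity _⟩, ?_, ?_⟩
  · intro i j hij
    exact disj hn2 hMn2 (fun h => hij (e.injective h))
  rw [htr]
  have h2 := hcomp (n := n) (M := M) hn2 (by omega) hMn2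
  have h3 : N ^ 3 ≤ 1000 * (n * (n * (n - 1))) := by
    have h4 : N ≤ 5 * n + 4 := by omega
    have h5 : N ^ 3 ≤ (5 * n + 4) ^ 3 := Nat.pow_le_pow_left h4 3
    refine h5.trans ?_
    obtain ⟨m, hm⟩ : ∃ m, n = m + 2 := ⟨n - 2, by omega⟩
    rw [hm]
    simp only [show m + 2 - 1 = m + 1 by omega]
    nlinarith [Nat.zero_le m, Nat.zero_le (m ^ 2), Nat.zero_le (m ^ 3)]
  calc (N : ℕ∞) ^ 3 = ((N ^ 3 : ℕ) : ℕ∞) := by push_cast; rfl
    _ ≤ ((1000 * (n * (n * (n - 1))) : ℕ) : ℕ∞) := by exact_mod_cast h3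
    _ = 1000 * ((n * (n * (n - 1)) : ℕ) : ℕ∞) := by push_cast; rfl
    _ ≤ _ := by gcongr

end Pool.Agent.H44.TD
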