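import Pool.Agent.H44.TB.Cnt

set_option autoImplicit false

/-!
# [H44 TD Def] Pairwise disjoint convex sets (MP_ce02af_co)

`a = 2 (n + 1)`, `δ = 1 / (16 a²)`, `r_l = 1 / 4 + (l + 1) / a`, `Y_j = 10 a^j`,
`G = 1000 a^(2 n)`, `R = 10 G a`, `ζ = 1 / (16 G a⁵)`, `C_m = 20 G a R (1 + 4 G / δ)^m`.
Planar sets `P_j = {z ≥ -Y_j / G, z² / 4 ≤ f, Y_j (1 - 2 z) - 2 ≤ f ≤ Y_j (1 - z / 2) + 2}`,
`f = u - G j z`. `A_j = {(x / R, z / R) ∈ P_j, |y| ≤ E}`, `B_k = {(y, z) ∈ P_k, |x| ≤ 2 R}`,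
`F_l = {z = ζ l, (1 - r) x / R + r y + r (1 - r) ≤ 0, -R ≤ x ≤ 0, -1 ≤ y ≤ 0}`,
`H_m = {x + y = C_m + w_m z, -2 C_m / δ ≤ z ≤ C_m, |x| ≤ D_m}`, `w_m = G m + 1 - δ`.
-/

namespace Pool.Agent.H44.TD

open Pool.Agent.H44.TB

/-- `a = 2 (n + 1)`. -/
noncomputable def da (n : ℕ) : ℝ := 2 * (n + 1)
/-- `δ = 1 / (16 a²)`. -/
noncomputable def dδ (n : ℕ) : ℝ := 1 / (16 * da n ^ 2)
/-- `r_l = 1 / 4 + (l + 1) / a`. -/
noncomputable def dr (n l : ℕ) : ℝ := 1 / 4 + (l + 1) / da n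
/-- `Y_j = 10 a^j`. -/
noncomputable def dY (n j : ℕ) : ℝ := 10 * da n ^ j
/-- `G = 1000 a^(2 n)`. -/
noncomputable def dG (n : ℕ) : ℝ := 1000 * da n ^ (2 * n)
/-- `R = 10 G a`. -/
noncomputable def dR (n : ℕ) : ℝ := 10 * dG n * da n
/-- `ζ = 1 / (16 G a⁵)`. -/
noncomputable def dζ (n : ℕ) : ℝ := 1 / (16 * dG n * da n ^ 5)
/-- `C_m`. -/
noncomputable def dC (n m : ℕ) : ℝ := 20 * dG n * da n * dR n * (1 + 4 * dG n / dδ n) ^ m
/-- `E = 2 G a R`. -/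
noncomputable def dE (n : ℕ) : ℝ := 2 * dG n * da n * dR n
/-- `D_m = 4 G a C_m / δ`. -/
noncomputable def dD (n m : ℕ) : ℝ := 4 * dG n * da n * dC n m / dδ n
/-- `w_m = G m + 1 - δ`. -/
noncomputable def dw (n m : ℕ) : ℝ := dG n * m + 1 - dδ n

/-- The planar sets `P_j`. -/
def PP (n j : ℕ) (u z : ℝ) : Prop :=
  -dY n j ≤ dG n * z ∧ z ^ 2 / 4 ≤ u - dG n * j * z ∧
    dY n j * (1 - 2 * z) - 2 ≤ u - dG n * j * z ∧
    u - dG n * j * z ≤ dY n j * (1 - z / 2) + 2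

/-- The sets `A_j`. -/
def sA (n j : ℕ) : Set E3 := {x | PP n j (x 0 / dR n) (x 2 / dR n) ∧ |x 1| ≤ dE n}
/-- The sets `B_k`. -/
def sB (n k : ℕ) : Set E3 := {x | PP n k (x 1) (x 2) ∧ |x 0| ≤ 2 * dR n}
/-- The sets `F_l`. -/
def sF (n l : ℕ) : Set E3 :=
  {x | x 2 = dζ n * l ∧
    (1 - dr n l) * (x 0 / dR n) + dr n l * x 1 + dr n l * (1 - dr n l) ≤ 0 ∧
    -dR n ≤ x 0 ∧ x 0 ≤ 0 ∧ -1 ≤ x 1 ∧ x 1 ≤ 0}
/-- The sets `H_m`. -/
def sH (n m : ℕ) : Set E3 :=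
  {x | x 0 + x 1 = dC n m + dw n m * x 2 ∧ -(2 * dC n m / dδ n) ≤ x 2 ∧ x 2 ≤ dC n m ∧
    |x 0| ≤ dD n m}

/-- The family. -/
def dfam (n M : ℕ) : Idx n M → Set E3
  | Sum.inl (Sum.inl j) => sA n j
  | Sum.inl (Sum.inr k) => sB n k
  | Sum.inr (Sum.inl l) => sF n l
  | Sum.inr (Sum.inr m) => sH n m

variable {n M : ℕ}

theorem da_ge (hn : 2 ≤ n) : 6 ≤ da n := by
  have : (2 : ℝ) ≤ n := by exact_mod_cast hn
  unfold da; linarith

theorem da_pos : 0 < da n := by unfold da; positivity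
theorem da_two : 2 ≤ da n := by
  have : (0 : ℝ) ≤ n := Nat.cast_nonneg n
  unfold da; linarith
theorem dδ_pos : 0 < dδ n := by
  have := da_pos (n := n)
  unfold dδ; positivity
theorem dδ_le : dδ n ≤ 1 / 64 := by
  have h := da_two (n := n)
  unfold dδ
  apply one_div_le_one_div_of_le (by norm_num)
  nlinarith
theorem dG_pos : 0 < dG n := by
  have := da_pos (n := n)
  unfold dG; positivity
theorem dG_ge : 1000 ≤ dG n := by
  have h : 1 ≤ da n ^ (2 * n) := one_le_pow₀ (by linarith [da_two (n := n)])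
  unfold dG; linarith
theorem dY_ge (j : ℕ) : 10 ≤ dY n j := by
  have h : 1 ≤ da n ^ j := one_le_pow₀ (by linarith [da_two (n := n)])
  unfold dY; linarith
theorem dY_pos (j : ℕ) : 0 < dY n j := by linarith [dY_ge (n := n) j]
/-- `10 Y_j² ≤ G` for `j ≤ n`. -/
theorem dY_sq {j : ℕ} (hj : j ≤ n) : 10 * dY n j ^ 2 ≤ dG n := by
  have h : da n ^ (j * 2) ≤ da n ^ (2 * n) :=
    pow_le_pow_right₀ (by linarith [da_two (n := n)]) (by omega)
  unfold dY dG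
  rw [mul_pow, ← pow_mul]
  linarith
theorem dR_pos : 0 < dR n := by
  have := da_pos (n := n)
  have := dG_pos (n := n)
  unfold dR; positivity
theorem dζ_pos : 0 < dζ n := by
  have := da_pos (n := n)
  have := dG_pos (n := n)
  unfold dζ; positivity
theorem dC_pos (m : ℕ) : 0 < dC n m := by
  have := da_pos (n := n)
  have := dG_pos (n := n)
  have := dR_pos (n := n)
  have := dδ_pos (n := n)
  unfold dC; positivity
theorem dC_ge (m : ℕ) : 20 * dG n * da n * dR n ≤ dC n m := by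
  have h1 := da_pos (n := n)
  have h2 := dG_pos (n := n)
  have h3 := dR_pos (n := n)
  have h4 := dδ_pos (n := n)
  have h : 1 ≤ (1 + 4 * dG n / dδ n) ^ m :=
    one_le_pow₀ (by have : 0 ≤ 4 * dG n / dδ n := by positivity
                    linarith)
  have h5 : 0 ≤ 20 * dG n * da n * dR n := by positivity
  unfold dC
  exact le_mul_of_one_le_right h5 h
theorem dr_pos (l : ℕ) : 1 / 4 < dr n l := by
  have := da_pos (n := n)
  have : 0 < ((l : ℝ) + 1) / da n := by positivity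
  unfold dr; linarith
theorem dr_lt {l : ℕ} (hl : l < n) : dr n l ≤ 3 / 4 - 1 / da n := by
  have h1 := da_pos (n := n)
  have h2 : (l : ℝ) + 1 ≤ n := by exact_mod_cast hl
  have h3 : ((l : ℝ) + 1) / da n ≤ n / da n := div_le_div_of_nonneg_right h2 h1.le
  have h4 : (n : ℝ) / da n = 1 / 2 - 1 / da n := by
    have : (n : ℝ) = da n / 2 - 1 := by unfold da; ring
    rw [this]; field_simp
  unfold dr; linarith
theorem dr_succ (l : ℕ) : dr n (l + 1) = dr n l + 1 / da n := by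
  have := da_pos (n := n)
  unfold dr; push_cast; field_simp; ring

end Pool.Agent.H44.TD
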