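import Pool.Agent.H44.TD.Def

set_option autoImplicit false

/-!
# [H44 TD Dis] The sets are pairwise disjoint (MP_ce02af_co)
-/

namespace Pool.Agent.H44.TD

open Pool.Agent.H44.TB

variable {n M : ℕ}

private theorem dY_G {j : ℕ} (hj : j ≤ n) : 100 * dY n j ≤ dG n := by
  have h1 := dY_sq (n := n) hj
  have h2 := dY_ge (n := n) j
  nlinarith

private theorem dY_mul {j j' : ℕ} (h : j < j') : da n * dY n j ≤ dY n j' := by
  have h2 : da n ^ (j + 1) ≤ da n ^ j' :=
    pow_le_pow_right₀ (by linarith [da_two (n := n)]) h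
  unfold dY
  rw [pow_succ] at h2
  linarith

/-- Planar: `P_j` and `P_j'` are disjoint (`j < j' ≤ n`). If `z ≥ 0`: `G z ≤ f_j ≤ Y_j + 2`, so `z ≤ 1/4`,
`Y_j' / 2 - 2 ≤ f_j' ≤ f_j ≤ Y_j + 2`, impossible. If `z < 0`: `G |z| ≤ Y_j`, so
`Y_j' - 2 ≤ f_j' = f_j + G (j' - j) |z| ≤ (n + 2) Y_j + 2`, impossible as `Y_j' ≥ a Y_j`. -/
theorem PP_disj (hn : 2 ≤ n) {j j' : ℕ} (h : j < j') (hj' : j' ≤ n) {u z : ℝ}
    (h1 : PP n j u z) (h2 : PP n j' u z) : False := by
  obtain ⟨a1, a2, a3, a4⟩ := h1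
  obtain ⟨b1, b2, b3, b4⟩ := h2
  have hG := dG_ge (n := n)
  have hY := dY_ge (n := n) j
  have hYG := dY_G (n := n) (j := j) (by omega)
  have hYm := dY_mul (n := n) h
  have ha := da_ge hn
  have hd1 : (1 : ℝ) ≤ (j' : ℝ) - j := by
    have : (j : ℝ) + 1 ≤ j' := by exact_mod_cast h
    linarith
  have hdn : (j' : ℝ) - j ≤ n := by
    have h3 : (j' : ℝ) ≤ n := by exact_mod_cast hj'
    have h4 : (0 : ℝ) ≤ j := Nat.cast_nonneg _
    linarith
  have hf : u - dG n * j' * z = u - dG n * j * z - dG n * z * ((j' : ℝ) - j) := by ring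
  rcases le_or_gt 0 z with hz | hz
  · have c1 : 0 ≤ dG n * z := by positivity
    have c2 : dG n * z ≤ dG n * z * ((j' : ℝ) - j) := le_mul_of_one_le_right c1 hd1
    have c3 : 0 ≤ z ^ 2 / 4 := by positivity
    have c4 : u - dG n * j * z ≤ dY n j + 2 := by nlinarith
    have c5 : dG n * z ≤ dY n j + 2 := by linarith
    have c6 : z ≤ 1 / 4 := by nlinarith
    have c7 : dY n j' * (1 / 2) ≤ dY n j' * (1 - 2 * z) :=
      mul_le_mul_of_nonneg_left (by linarith) (dY_pos j').le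
    have c8 : 6 * dY n j ≤ da n * dY n j := mul_le_mul_of_nonneg_right ha (dY_pos j).le
    linarith
  · have c1 : -(dG n * z) ≤ dY n j := by linarith
    have c0 : 0 ≤ -(dG n * z) := by nlinarith
    have c2 : -(dG n * z) * ((j' : ℝ) - j) ≤ dY n j * n :=
      mul_le_mul c1 hdn (by linarith) (dY_pos j).le
    have c3 : -z ≤ 1 / 100 := by
      by_contra hc
      rw [not_le] at hc
      have : dG n * (1 / 100) < dG n * (-z) := mul_lt_mul_of_pos_left hc dG_pos
      linarith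
    have c4 : dY n j * (1 - z / 2) ≤ dY n j * (1 + 1 / 200) :=
      mul_le_mul_of_nonneg_left (by linarith) (dY_pos j).le
    have c5 : dY n j' ≤ dY n j' * (1 - 2 * z) :=
      le_mul_of_one_le_right (dY_pos j').le (by linarith)
    have c6 : da n * dY n j = 2 * (dY n j * n) + 2 * dY n j := by unfold da; ring
    have c7 : 0 ≤ dY n j * n := mul_nonneg (dY_pos j).le (Nat.cast_nonneg n)
    linarith

/-- `z < 3` on `P_j`. -/
theorem PP_z {j : ℕ} {u z : ℝ} (h : PP n j u z) : z < 3 := by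
  obtain ⟨a1, a2, a3, a4⟩ := h
  by_contra hc
  rw [not_lt] at hc
  have hY := dY_ge (n := n) j
  have h1 : dY n j * (1 - z / 2) ≤ 10 * (-(1 / 2)) := by nlinarith
  have h2 : 0 ≤ z ^ 2 / 4 := by positivity
  linarith

private theorem PP_lo {j : ℕ} (hj : j ≤ n) {u z : ℝ} (h : PP n j u z) : -(1 / 100) ≤ z := by
  have h1 := dY_G (n := n) hj
  by_contra hc
  rw [not_le] at hc
  have : dG n * z < dG n * (-(1 / 100)) := mul_lt_mul_of_pos_left hc dG_pos
  linarith [h.1]

/-- `u ≤ 3 G n + 2 Y_j + 2` on `P_j`. -/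
private theorem PP_u {j : ℕ} (hj : j ≤ n) {u z : ℝ} (h : PP n j u z) :
    u ≤ 3 * dG n * n + 2 * dY n j + 2 := by
  have h1 := PP_z h
  have h2 := PP_lo hj h
  have hY := dY_ge (n := n) j
  have hG := dG_pos (n := n)
  have hj0 : (0 : ℝ) ≤ j := Nat.cast_nonneg _
  have hjn : (j : ℝ) ≤ n := by exact_mod_cast hj
  have h3 : dG n * j * z ≤ 3 * dG n * n := by
    have e1 : dG n * j * z ≤ dG n * j * 3 := mul_le_mul_of_nonneg_left h1.le (by positivity)
    have e2 : dG n * j ≤ dG n * n := mul_le_mul_of_nonneg_left hjn hG.le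
    linarith
  have h4 : dY n j * (1 - z / 2) ≤ dY n j * 2 :=
    mul_le_mul_of_nonneg_left (by linarith) (dY_pos j).le
  linarith [h.2.2.2]

private theorem Ra : dR n = 10 * dG n * da n := rfl

private theorem R_ge : 20000 ≤ dR n := by
  have h1 := dG_ge (n := n)
  have h2 := da_two (n := n)
  rw [Ra]
  nlinarith

/-- A point of `A_j` with `|z| ≤ 3` has `x > 2 R`. -/
private theorem sA_lower {j : ℕ} (hj : j ≤ n) {x : E3} (hx : x ∈ sA n j) (hz : |x 2| ≤ 3) :
    2 * dR n < x 0 := by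
  obtain ⟨⟨a1, a2, a3, a4⟩, _⟩ := hx
  have hR := dR_pos (n := n)
  have hR2 := R_ge (n := n)
  have hG := dG_pos (n := n)
  have ha := da_pos (n := n)
  have hY := dY_ge (n := n) j
  rw [abs_le] at hz
  set w := x 2 / dR n with hw
  have hw1 : w ≤ 3 / dR n := div_le_div_of_nonneg_right hz.2 hR.le
  have hw2 : -(3 / dR n) ≤ w := by rw [← neg_div]; exact div_le_div_of_nonneg_right hz.1 hR.le
  have hRi : 3 / dR n ≤ 1 / 1000 := by
    rw [div_le_iff₀ hR]; linarith
  have h1 : dY n j * (1 - 1 / 500) ≤ dY n j * (1 - 2 * w) :=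
    mul_le_mul_of_nonneg_left (by linarith) (dY_pos j).le
  have hj0 : (0 : ℝ) ≤ j := Nat.cast_nonneg _
  have hjn : (j : ℝ) ≤ n := by exact_mod_cast hj
  have h2 : -(1 / 2) ≤ dG n * j * w := by
    have e1 : dG n * j * (-(3 / dR n)) ≤ dG n * j * w :=
      mul_le_mul_of_nonneg_left hw2 (by positivity)
    have e2 : dG n * j * (3 / dR n) ≤ 1 / 2 := by
      rw [mul_div_assoc', div_le_iff₀ hR, Ra]
      have e3 : (j : ℝ) ≤ da n := by unfold da; linarith
      have e4 : dG n * j ≤ dG n * da n := mul_le_mul_of_nonneg_left e3 hG.le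
      have e5 : 0 ≤ dG n * da n := by positivity
      linarith
    linarith
  have h3 : 2 < x 0 / dR n := by linarith
  rwa [lt_div_iff₀ hR] at h3

private theorem zl {l : ℕ} (hl : l < n) : 0 ≤ dζ n * l ∧ dζ n * l ≤ 1 / 16 := by
  have hG := dG_ge (n := n)
  have ha := da_two (n := n)
  have hz := dζ_pos (n := n)
  refine ⟨by positivity, ?_⟩
  have h1 : (l : ℝ) ≤ n := by exact_mod_cast hl.le
  have h2 : (l : ℝ) ≤ da n := by unfold da; linarith [Nat.cast_nonneg (α := ℝ) n]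
  unfold dζ
  rw [div_mul_eq_mul_div, one_mul, div_le_div_iff₀ (by positivity) (by norm_num)]
  have h3 : da n ≤ da n ^ 5 := by
    calc da n = da n ^ 1 := (pow_one _).symm
      _ ≤ da n ^ 5 := pow_le_pow_right₀ (by linarith) (by norm_num)
  have h4 : da n ^ 5 ≤ dG n * da n ^ 5 := le_mul_of_one_le_left (by positivity) (by linarith)
  linarith

private theorem dC_R (hn : 2 ≤ n) (m : ℕ) : 0 < dw n m := by
  have := dδ_le (n := n)
  have := dG_pos (n := n)
  have : 0 ≤ dG n * m := by positivity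
  unfold dw; linarith

private theorem dw_le {m : ℕ} (hm : m ≤ 2 * n + 3) : dw n m ≤ dG n * (2 * n + 4) := by
  have h1 := dδ_pos (n := n)
  have h2 := dG_ge (n := n)
  have h3 : (m : ℝ) ≤ 2 * n + 3 := by exact_mod_cast hm
  have h4 : dG n * m ≤ dG n * (2 * n + 3) := mul_le_mul_of_nonneg_left h3 dG_pos.le
  unfold dw
  linarith

private theorem sA_sB {j k : ℕ} (hj : j ≤ n) (hk : k ≤ n) {x : E3} (h1 : x ∈ sA n j)
    (h2 : x ∈ sB n k) : False := by
  have hz : |x 2| ≤ 3 := by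
    rw [abs_le]
    exact ⟨by linarith [PP_lo hk h2.1], (PP_z h2.1).le⟩
  have h3 := sA_lower hj h1 hz
  have h4 := (abs_le.mp h2.2).2
  linarith

private theorem sA_sF {j l : ℕ} (hj : j ≤ n) (hl : l < n) {x : E3} (h1 : x ∈ sA n j)
    (h2 : x ∈ sF n l) : False := by
  obtain ⟨e, _, _, hx, _, _⟩ := h2
  obtain ⟨z0, z1⟩ := zl hl
  have hz : |x 2| ≤ 3 := by
    rw [e, abs_le]
    exact ⟨by linarith, by linarith⟩
  have h3 := sA_lower hj h1 hz
  linarith [dR_pos (n := n)]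

private theorem sB_sF {k l : ℕ} (hl : l < n) {x : E3} (h1 : x ∈ sB n k)
    (h2 : x ∈ sF n l) : False := by
  obtain ⟨e, _, _, _, _, hy⟩ := h2
  obtain ⟨z0, z1⟩ := zl hl
  obtain ⟨⟨a1, a2, a3, a4⟩, _⟩ := h1
  rw [← e] at z0 z1
  have hY := dY_ge (n := n) k
  have hG := dG_pos (n := n)
  have h3 : 0 ≤ dG n * k * x 2 := by positivity
  have h4 : dY n k * (7 / 8) ≤ dY n k * (1 - 2 * x 2) :=
    mul_le_mul_of_nonneg_left (by linarith) (dY_pos k).le
  linarith

private theorem sA_sH (hn : 2 ≤ n) {j m : ℕ} (hj : j ≤ n) (hm : m ≤ 2 * n + 3) {x : E3}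
    (h1 : x ∈ sA n j) (h2 : x ∈ sH n m) : False := by
  obtain ⟨e, _, _, _⟩ := h2
  obtain ⟨hP, hy⟩ := h1
  have hR := dR_pos (n := n)
  have hG := dG_ge (n := n)
  have ha := da_ge hn
  have hC := dC_ge (n := n) m
  have hw := dw_le hm
  have hw0 := dC_R hn m
  have hY := dY_ge (n := n) j
  have hYG := dY_G (n := n) hj
  have hu := PP_u hj hP
  rw [div_le_iff₀ hR] at hu
  have hlo : -(dY n j * dR n) ≤ dG n * x 2 := by
    have h3 := hP.1
    have h4 : dG n * (x 2 / dR n) * dR n = dG n * x 2 := by field_simp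
    have h5 := mul_le_mul_of_nonneg_right h3 hR.le
    rw [h4] at h5
    linarith
  -- `w_m z ≥ -(2 n + 4) Y_j R`
  have hn0 : (0 : ℝ) ≤ n := Nat.cast_nonneg n
  have hwz : -((2 * n + 4) * (dY n j * dR n)) ≤ dw n m * x 2 := by
    rcases le_or_gt 0 (x 2) with hz | hz
    · have h3 : 0 ≤ dw n m * x 2 := mul_nonneg hw0.le hz
      have h4 : 0 ≤ (2 * (n : ℝ) + 4) * (dY n j * dR n) := by
        have := dY_pos (n := n) j
        positivity
      linarith
    · have h3 : dG n * (2 * n + 4) * x 2 ≤ dw n m * x 2 :=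
        mul_le_mul_of_nonpos_right hw hz.le
      have h4 : (2 * (n : ℝ) + 4) * (-(dY n j * dR n)) ≤ (2 * (n : ℝ) + 4) * (dG n * x 2) :=
        mul_le_mul_of_nonneg_left hlo (by positivity)
      linarith
  have hy' := (abs_le.mp hy).2
  have hE : dE n = 2 * dG n * da n * dR n := rfl
  have hna : (n : ℝ) = da n / 2 - 1 := by unfold da; ring
  -- everything divided by `R`
  have hkey : 20 * dG n * da n * dR n ≤
      (3 * dG n * n + 2 * dY n j + 2) * dR n + 2 * dG n * da n * dR n +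
        (2 * n + 4) * (dY n j * dR n) := by
    linarith
  have hkey2 : 20 * dG n * da n ≤
      (3 * dG n * n + 2 * dY n j + 2) + 2 * dG n * da n + (2 * n + 4) * dY n j := by
    refine le_of_mul_le_mul_right ?_ hR
    linarith
  have h6 : (2 * (n : ℝ) + 4) * dY n j ≤ (2 * n + 4) * (dG n / 100) :=
    mul_le_mul_of_nonneg_left (by linarith) (by positivity)
  rw [hna] at hkey2 h6
  nlinarith

private theorem sB_sH (hn : 2 ≤ n) {k m : ℕ} (hk : k ≤ n) (hm : m ≤ 2 * n + 3) {x : E3}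
    (h1 : x ∈ sB n k) (h2 : x ∈ sH n m) : False := by
  obtain ⟨e, _, _, _⟩ := h2
  obtain ⟨hP, hx⟩ := h1
  have hR := R_ge (n := n)
  have hG := dG_ge (n := n)
  have ha := da_ge hn
  have hC := dC_ge (n := n) m
  have hw := dw_le hm
  have hw0 := dC_R hn m
  have hY := dY_ge (n := n) k
  have hYG := dY_G (n := n) hk
  have hu := PP_u hk hP
  have hlo := hP.1
  have hn0 : (0 : ℝ) ≤ n := Nat.cast_nonneg n
  have hwz : -((2 * n + 4) * dY n k) ≤ dw n m * x 2 := by
    rcases le_or_gt 0 (x 2) with hz | hz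
    · have h3 : 0 ≤ dw n m * x 2 := mul_nonneg hw0.le hz
      have h4 : 0 ≤ (2 * (n : ℝ) + 4) * dY n k := by
        have := dY_pos (n := n) k
        positivity
      linarith
    · have h3 : dG n * (2 * n + 4) * x 2 ≤ dw n m * x 2 :=
        mul_le_mul_of_nonpos_right hw hz.le
      have h4 : (2 * (n : ℝ) + 4) * (-dY n k) ≤ (2 * (n : ℝ) + 4) * (dG n * x 2) :=
        mul_le_mul_of_nonneg_left hlo (by positivity)
      linarith
  have hx' := (abs_le.mp hx).2
  have hna : (n : ℝ) = da n / 2 - 1 := by unfold da; ring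
  have h6 : (2 * (n : ℝ) + 4) * dY n k ≤ (2 * n + 4) * (dG n / 100) :=
    mul_le_mul_of_nonneg_left (by linarith) (by positivity)
  have h7 : 20 * dG n * da n * dR n ≥ 2 * dR n + 20 * dG n * da n := by
    have e1 : 6 ≤ dG n * da n := by nlinarith
    have e2 : 6 * dR n ≤ dG n * da n * dR n := mul_le_mul_of_nonneg_right e1 (by linarith)
    have e3 : dG n * da n * 20000 ≤ dG n * da n * dR n :=
      mul_le_mul_of_nonneg_left hR (by linarith)
    linarith
  rw [hna] at hu h6 hwz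
  nlinarith

private theorem sF_sH (hn : 2 ≤ n) {l m : ℕ} (hl : l < n) {x : E3}
    (h1 : x ∈ sF n l) (h2 : x ∈ sH n m) : False := by
  obtain ⟨e, _, _, _⟩ := h2
  obtain ⟨e', _, _, hx, _, hy⟩ := h1
  obtain ⟨z0, z1⟩ := zl hl
  rw [← e'] at z0
  have hw0 := dC_R hn m
  have h3 := mul_nonneg hw0.le z0
  linarith [dC_pos (n := n) m]

private theorem sH_sH {m m' : ℕ} (h : m < m') {x : E3}
    (h1 : x ∈ sH n m) (h2 : x ∈ sH n m') : False := by
  obtain ⟨e, hz, _, _⟩ := h1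
  obtain ⟨e', _, _, _⟩ := h2
  have hG := dG_pos (n := n)
  have hδ := dδ_pos (n := n)
  have hC := dC_pos (n := n) m
  obtain ⟨d, rfl⟩ : ∃ d, m' = m + d := ⟨m' - m, by omega⟩
  have hd : (1 : ℝ) ≤ d := by
    have : 1 ≤ d := by omega
    exact_mod_cast this
  have hCm : dC n (m + d) = dC n m * (1 + 4 * dG n / dδ n) ^ d := by
    unfold dC; rw [pow_add]; ring
  have hB : 1 + (d : ℝ) * (4 * dG n / dδ n) ≤ (1 + 4 * dG n / dδ n) ^ d := by
    have h0 : (0 : ℝ) ≤ 4 * dG n / dδ n := by positivity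
    exact one_add_mul_le_pow (by linarith) d
  have h3 : dC n m * (1 + (d : ℝ) * (4 * dG n / dδ n)) ≤ dC n (m + d) := by
    rw [hCm]; exact mul_le_mul_of_nonneg_left hB hC.le
  have hw : dw n (m + d) = dw n m + dG n * d := by unfold dw; push_cast; ring
  have h4 : dC n (m + d) - dC n m = -(dG n * d * x 2) := by
    rw [e, hw] at e'
    linarith
  have h5 : -(dG n * d * x 2) ≤ dG n * d * (2 * dC n m / dδ n) := by
    have : dG n * d * (-(2 * dC n m / dδ n)) ≤ dG n * d * x 2 :=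
      mul_le_mul_of_nonneg_left hz (by positivity)
    linarith
  have h6 : dC n m * ((d : ℝ) * (4 * dG n / dδ n)) = 2 * (dG n * d * (2 * dC n m / dδ n)) := by
    field_simp; ring
  have h7 : 0 < dG n * d * (2 * dC n m / dδ n) := by positivity
  linarith

/-- The sets are pairwise disjoint. A/A', B/B' by `PP_disj`. A/B, A/F: on `B_k`, `F_l`: `|z| ≤ 3`,
`x ≤ 2 R`, but on `A_j` with `|z| ≤ 3`: `x / R ≥ - G n 3 / R + 10 (1 - 6 / R) - 2 > 2`. B/F: on `F_l`
`y ≤ 0` and `0 ≤ z ≤ 1/16`, there `y ≥ Y_k (1 - 2 z) - 2 > 0` on `B_k`. F/F': different `z`. H/A, H/B, H/F: there `|z| ≤ 3 R`, `z ≥ - R Y_j / G`,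
`x + y ≤ R (3 G n + 2 Y_j + 2) + E`, while on `H_m` `x + y ≥ C_m - w_m R Y_j / G`, `C_m ≥ 20 G a R`. H/H':
`(1 + 4 G / δ)^d ≥ 1 + 4 d G / δ > 1 + 2 d G / δ` (Bernoulli). -/
theorem disj (hn : 2 ≤ n) (hM2 : M ≤ 2 * n + 4) {i i' : Idx n M} (h : i ≠ i') :
    Disjoint (dfam n M i) (dfam n M i') := by
  rw [Set.disjoint_left]
  intro x hx hx'
  rcases i with (j | k) | (l | m) <;> rcases i' with (j' | k') | (l' | m')
  · change x ∈ sA n j at hx
    change x ∈ sA n j' at hx'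
    rcases lt_trichotomy (j : ℕ) j' with hl | hl | hl
    · exact PP_disj hn hl j'.2.le hx.1 hx'.1
    · exact h (by rw [Fin.ext hl])
    · exact PP_disj hn hl j.2.le hx'.1 hx.1
  · exact sA_sB j.2.le k'.2.le hx hx'
  · exact sA_sF j.2.le l'.2 hx hx'
  · exact sA_sH hn j.2.le (by have := m'.2; omega) hx hx'
  · exact sA_sB j'.2.le k.2.le hx' hx
  · change x ∈ sB n k at hx
    change x ∈ sB n k' at hx'
    rcases lt_trichotomy (k : ℕ) k' with hl | hl | hl
    · exact PP_disj hn hl k'.2.le hx.1 hx'.1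
    · exact h (by rw [Fin.ext hl])
    · exact PP_disj hn hl k.2.le hx'.1 hx.1
  · exact sB_sF l'.2 hx hx'
  · exact sB_sH hn k.2.le (by have := m'.2; omega) hx hx'
  · exact sA_sF j'.2.le l.2 hx' hx
  · exact sB_sF l.2 hx' hx
  · change x ∈ sF n l at hx
    change x ∈ sF n l' at hx'
    have e := hx.1.symm.trans hx'.1
    have e2 := mul_left_cancel₀ (dζ_pos (n := n)).ne' e
    exact h (by rw [Fin.ext (Nat.cast_injective e2)])
  · exact sF_sH hn l.2 hx hx'
  · exact sA_sH hn j'.2.le (by have := m.2; omega) hx' hx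
  · exact sB_sH hn k'.2.le (by have := m.2; omega) hx' hx
  · exact sF_sH hn l'.2 hx' hx
  · change x ∈ sH n m at hx
    change x ∈ sH n m' at hx'
    rcases lt_trichotomy (m : ℕ) m' with hl | hl | hl
    · exact sH_sH hl hx hx'
    · exact h (by rw [Fin.ext hl])
    · exact sH_sH hl hx' hx

end Pool.Agent.H44.TD
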