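import Pool.Agent.H44.TD.Smp

set_option autoImplicit false

/-!
# [H44 TD Sep] The sample lines are separated by the open cones (MP_ce02af_co, disjoint sets)
-/

namespace Pool.Agent.H44.TD

open Pool.Agent.H44.TB (E3 Line3 transversalSpace dirSet ext3 line_coords pt Idx lin mem_lin dir_lin
  pt_ne direction_smul pt_0 pt_1 pt_2)

variable {n M : ℕ}

theorem sample_dir (hn : 2 ≤ n) {c : ℕ × ℕ × ℕ} (hi : c.2.2 + 1 < n) :
    sampleLine n c ∈ dirSet (coneOp n c) := by
  obtain ⟨j, k, i⟩ := c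
  simp only at hi
  have ha0 : 0 < da n := da_pos
  have hδ0 : 0 < dδ n := dδ_pos
  have h1 := smp_mid (n := n) i
  have h2 := smp_mid' (n := n) i
  obtain ⟨_, _, h3, _⟩ := smp_bounds hn hi
  have h4 : 0 < 1 / (2 * da n) := by positivity
  refine ⟨_, dir_lin _ _ _ _, pt_ne _ _, ?_⟩
  rw [mem_coneOp]
  simp only [pt_0, pt_1, pt_2, mul_one]
  refine ⟨one_pos, by linarith, by linarith, by linarith, by linarith⟩

/-- Different cells are separated because the spacing `G` is at least `1000`. -/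
theorem cell_eq {j j' : ℕ} {u u' : ℝ} (hu0 : 0 ≤ u) (hu1 : u ≤ 1) (hu0' : 0 ≤ u') (hu1' : u' ≤ 1)
    (h : |(dG n * j + u) - (dG n * j' + u')| ≤ 1) : j = j' := by
  have hG := dG_ge (n := n)
  obtain ⟨h1, h2⟩ := abs_le.1 h
  rcases lt_trichotomy j j' with hlt | heq | hgt
  · exfalso
    have h3 : (j : ℝ) + 1 ≤ j' := by exact_mod_cast hlt
    have h4 : dG n * ((j : ℝ) + 1) ≤ dG n * j' := mul_le_mul_of_nonneg_left h3 (by linarith)
    linarith
  · exact heq
  · exfalso
    have h3 : (j' : ℝ) + 1 ≤ j := by exact_mod_cast hgt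
    have h4 : dG n * ((j' : ℝ) + 1) ≤ dG n * j := mul_le_mul_of_nonneg_left h3 (by linarith)
    linarith

/-- The open cones separate the sample lines. -/
theorem sep (hn : 2 ≤ n) {c d : ℕ × ℕ × ℕ} (hc : c.2.2 + 1 < n) (hd : d.2.2 + 1 < n)
    (h : sampleLine n d ∈ dirSet (coneOp n c)) : c = d := by
  obtain ⟨j, k, i⟩ := c
  obtain ⟨j', k', i'⟩ := d
  simp only at hc hd
  obtain ⟨v, hv, hv0, hvc⟩ := h
  obtain ⟨c, rfl⟩ := direction_smul (dir_lin _ _ _ _) (pt_ne _ _) hv
  rw [mem_coneOp] at hvc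
  simp only [PiLp.smul_apply, pt_0, pt_1, pt_2, smul_eq_mul, mul_one] at hvc
  obtain ⟨h2, hA, hB, hC, hD⟩ := hvc
  have ha0 : 0 < da n := da_pos
  have hδ0 : 0 < dδ n := dδ_pos
  have hδ1 := dδ_le (n := n)
  have hG := dG_ge (n := n)
  rw [mul_comm c] at hA hB hC
  have hA' := lt_of_mul_lt_mul_right hA h2.le
  have hB' := lt_of_mul_lt_mul_right hB h2.le
  have hC' := lt_of_mul_lt_mul_right hC h2.le
  have hD' : dG n * (j' : ℝ) + dsmp n i' + (dG n * k' + (1 - dsmp n i' - 2 * dδ n)) <
      dG n * (j + k) + 1 - dδ n := by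
    have e : c * (dG n * (j' : ℝ) + dsmp n i') + c * (dG n * k' + (1 - dsmp n i' - 2 * dδ n)) =
      (dG n * (j' : ℝ) + dsmp n i' + (dG n * k' + (1 - dsmp n i' - 2 * dδ n))) * c := by ring
    rw [e] at hD
    exact lt_of_mul_lt_mul_right hD h2.le
  obtain ⟨hs0, hs1, ht0, ht1⟩ := smp_bounds hn hd
  have hr0 := dr_pos (n := n) i
  have hr1 := dr_lt (n := n) hc
  have h1a : 0 < 1 / da n := by positivity
  have hri := dr_succ (n := n) i
  -- the first index
  have hjj : j = j' := by
    refine cell_eq (n := n) (u := dr n i) (u' := dsmp n i') (by linarith) (by linarith)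
      (by linarith) (by linarith) (abs_le.2 ⟨?_, by linarith⟩)
    have : 1 / da n ≤ 1 / 2 := one_div_le_one_div_of_le (by norm_num) da_two
    linarith
  subst hjj
  -- the third index
  have hii : i = i' := by
    have e1 : dr n i < dsmp n i' := by linarith
    have e2 : dsmp n i' < dr n (i + 1) := by linarith
    have e3 : ((i : ℝ) + 1) < (i' : ℝ) + 3 / 2 := by
      have h1 : ((i : ℝ) + 1) / da n < (2 * (i' : ℝ) + 3) / (2 * da n) := by
        unfold dr dsmp at e1; linarith
      rw [div_lt_div_iff₀ ha0 (by positivity)] at h1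
      have h3 : ((i : ℝ) + 1) * 2 * da n < (2 * (i' : ℝ) + 3) * da n := by linarith
      have := lt_of_mul_lt_mul_right h3 ha0.le
      linarith
    have e4 : (i' : ℝ) + 3 / 2 < (i : ℝ) + 2 := by
      have h1 : (2 * (i' : ℝ) + 3) / (2 * da n) < (((i + 1 : ℕ) : ℝ) + 1) / da n := by
        unfold dr dsmp at e2; linarith
      rw [div_lt_div_iff₀ (by positivity) ha0] at h1
      push_cast at h1
      have h3 : (2 * (i' : ℝ) + 3) * da n < ((i : ℝ) + 1 + 1) * 2 * da n := by linarith
      have := lt_of_mul_lt_mul_right h3 ha0.le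
      linarith
    have e5 : i < i' + 1 := by
      have : (i : ℝ) < ((i' + 1 : ℕ) : ℝ) := by push_cast; linarith
      exact_mod_cast this
    have e6 : i' < i + 1 := by
      have : (i' : ℝ) < ((i + 1 : ℕ) : ℝ) := by push_cast; linarith
      exact_mod_cast this
    omega
  subst hii
  -- the second index
  have hkk : k = k' := by
    refine cell_eq (n := n) (u := 0) (u' := 1 - dsmp n i - 2 * dδ n) le_rfl (by norm_num)
      (by linarith) (by linarith) (abs_le.2 ⟨?_, by linarith⟩)
    rcases lt_or_ge k k' with hlt | hge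
    · exfalso
      have h3 : (k : ℝ) + 1 ≤ k' := by exact_mod_cast hlt
      have h4 : dG n * ((k : ℝ) + 1) ≤ dG n * k' := mul_le_mul_of_nonneg_left h3 (by linarith)
      linarith
    · have h3 : (k' : ℝ) ≤ k := by exact_mod_cast hge
      have h4 : dG n * (k' : ℝ) ≤ dG n * k := mul_le_mul_of_nonneg_left h3 (by linarith)
      linarith
  subst hkk
  rfl

end Pool.Agent.H44.TD
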