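import Pool.Agent.H44.TD.Str
import Pool.Agent.H44.TB.Smp

set_option autoImplicit false

/-!
# [H44 TD Smp] The sample lines (MP_ce02af_co, disjoint sets)

The sample lines are those of `CubicLowerBound` (helper34).
-/

namespace Pool.Agent.H44.TD

open Pool.Agent.H44.TB (E3 Line3 transversalSpace dirSet ext3 line_coords pt Idx lin mem_lin dir_lin
  pt_ne direction_smul marg pt_0 pt_1 pt_2)

variable {n M : ℕ}

/-- The `s`-parameter of the sample line with index `i`. -/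
noncomputable def dsmp (n i : ℕ) : ℝ := 1 / 4 + (2 * i + 3) / (2 * da n)

theorem smp_mid (i : ℕ) : dsmp n i = dr n i + 1 / (2 * da n) := by
  have := da_pos (n := n)
  unfold dsmp dr; field_simp; ring

theorem smp_mid' (i : ℕ) : dsmp n i = dr n (i + 1) - 1 / (2 * da n) := by
  have := da_pos (n := n)
  rw [smp_mid, dr_succ]; field_simp; ring

theorem dδ_small (hn : 2 ≤ n) : 2 * dδ n < 1 / (2 * da n) := by
  have h := da_ge hn
  have h0 : 0 < da n := da_pos
  unfold dδ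
  rw [mul_one_div, div_lt_div_iff₀ (by positivity) (by positivity)]
  nlinarith

section Planar

/-- the line `u = -s² + (G j' + s) z` meets `P_j` at `z = 2 s` if `j' = j` -/
theorem hitP0 {j : ℕ} {s : ℝ} (hs0 : 1 / 4 ≤ s) (hs1 : s ≤ 3 / 4) :
    PP n j (-s ^ 2 + (dG n * j + s) * (2 * s)) (2 * s) := by
  have hY := dY_ge (n := n) j
  have hG := dG_pos (n := n)
  refine ⟨?_, ?_, ?_, ?_⟩
  · have : 0 ≤ dG n * (2 * s) := by positivity
    linarith
  · nlinarith
  · nlinarith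
  · nlinarith

/-- the line `u = -s² + (G j' + s) z` meets `P_j` at `z = Y_j / (G (j' - j))` if `j' ≠ j` -/
theorem hitP1 {j j' : ℕ} (hj : j ≤ n) (hne : j' ≠ j) {s : ℝ} (hs0 : 1 / 4 ≤ s) (hs1 : s ≤ 3 / 4)
    {z : ℝ} (hz : z = dY n j / (dG n * ((j' : ℝ) - j))) :
    PP n j (-s ^ 2 + (dG n * j' + s) * z) z ∧ |z| ≤ 1 := by
  have hY := dY_ge (n := n) j
  have hY2 := dY_sq (n := n) hj
  have hG := dG_pos (n := n)
  have hG1 := dG_ge (n := n)
  set Y := dY n j with hYdef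
  set G := dG n with hGdef
  have hd : ((j' : ℝ) - j) ≠ 0 := by
    intro h
    apply hne
    have : (j' : ℝ) = j := by linarith
    exact_mod_cast this
  have hd1 : 1 ≤ |(j' : ℝ) - j| := by
    rcases lt_or_gt_of_ne hne with h | h
    · have : (j' : ℝ) + 1 ≤ j := by exact_mod_cast h
      rw [abs_of_neg (by linarith)]; linarith
    · have : (j : ℝ) + 1 ≤ j' := by exact_mod_cast h
      rw [abs_of_pos (by linarith)]; linarith
  have hzd : G * ((j' : ℝ) - j) * z = Y := by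
    rw [hz]; field_simp
  have hza : G * |z| ≤ Y := by
    have h1 : |G * ((j' : ℝ) - j) * z| = Y := by rw [hzd, abs_of_nonneg (by linarith)]
    rw [abs_mul, abs_mul, abs_of_pos hG] at h1
    have h2 : G * |z| * 1 ≤ G * |z| * |(j' : ℝ) - j| :=
      mul_le_mul_of_nonneg_left hd1 (mul_nonneg hG.le (abs_nonneg z))
    nlinarith
  have hYz : Y * |z| ≤ 1 / 10 := by
    have h1 : 10 * Y ^ 2 * |z| ≤ G * |z| := mul_le_mul_of_nonneg_right hY2 (abs_nonneg z)
    have h2 : 10 * Y * (Y * |z|) ≤ Y := by nlinarith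
    have h3 : 0 < Y := by linarith
    by_contra hcon
    push Not at hcon
    nlinarith
  have hz1 : |z| ≤ 1 / 100 := by
    have h1 : 10 * |z| ≤ Y * |z| := mul_le_mul_of_nonneg_right hY (abs_nonneg z)
    linarith
  obtain ⟨hzl, hzu⟩ := abs_le.1 hz1
  have hYz' : |Y * z| ≤ 1 / 10 := by
    rw [abs_mul, abs_of_nonneg (by linarith : (0 : ℝ) ≤ Y)]; exact hYz
  obtain ⟨hYl, hYu⟩ := abs_le.1 hYz'
  have hf : -s ^ 2 + (G * j' + s) * z - G * j * z = Y - s ^ 2 + s * z := by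
    have : G * ((j' : ℝ) - j) * z = G * j' * z - G * j * z := by ring
    rw [this] at hzd
    linarith
  have hs2 : s ^ 2 ≤ 9 / 16 := by nlinarith
  have hs20 : 0 ≤ s ^ 2 := sq_nonneg s
  have hsz1 : s * z ≤ 1 / 100 := by nlinarith
  have hsz2 : -(1 / 100) ≤ s * z := by nlinarith
  have hz2 : z ^ 2 ≤ 1 := by nlinarith
  refine ⟨⟨?_, ?_, ?_, ?_⟩, by linarith⟩
  · have h1 : -(G * |z|) ≤ G * z := by
      have := neg_abs_le z
      nlinarith
    linarith
  · rw [hf]; linarith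
  · rw [hf]
    have : Y * (1 - 2 * z) = Y - 2 * (Y * z) := by ring
    rw [this]; linarith
  · rw [hf]
    have : Y * (1 - z / 2) = Y - (Y * z) / 2 := by ring
    rw [this]; linarith

/-- the line `u = -s² + (G j' + s) z` meets `P_j` with `|z| ≤ 3 / 2` -/
theorem hitP {j : ℕ} (hj : j ≤ n) (j' : ℕ) {s : ℝ} (hs0 : 1 / 4 ≤ s) (hs1 : s ≤ 3 / 4) :
    ∃ z : ℝ, PP n j (-s ^ 2 + (dG n * j' + s) * z) z ∧ |z| ≤ 3 / 2 := by
  by_cases h : j' = j
  · subst h
    exact ⟨2 * s, hitP0 hs0 hs1, abs_le.2 ⟨by linarith, by linarith⟩⟩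
  · obtain ⟨h1, h2⟩ := hitP1 hj h hs0 hs1 rfl
    exact ⟨_, h1, by linarith⟩

end Planar

/-- The sample line. -/
noncomputable def sampleLine (n : ℕ) (c : ℕ × ℕ × ℕ) : Line3 :=
  lin (dG n * c.1 + dsmp n c.2.2) (dG n * c.2.1 + (1 - dsmp n c.2.2 - 2 * dδ n))
    (-(dR n * (dsmp n c.2.2) ^ 2)) (-(1 - dsmp n c.2.2 - 2 * dδ n) ^ 2)

theorem smp_bounds (hn : 2 ≤ n) {i : ℕ} (hi : i + 1 < n) :
    1 / 4 ≤ dsmp n i ∧ dsmp n i ≤ 3 / 4 ∧ 1 / 4 ≤ 1 - dsmp n i - 2 * dδ n ∧
      1 - dsmp n i - 2 * dδ n ≤ 3 / 4 := by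
  have h1 := dr_pos (n := n) i
  have h2 := dr_lt (n := n) hi
  have h3 := smp_mid (n := n) i
  have h4 := smp_mid' (n := n) i
  have h5 := dδ_small hn
  have h6 := dδ_pos (n := n)
  have h7 := da_pos (n := n)
  have h8 : 0 < 1 / (2 * da n) := by positivity
  have h9 : 0 < 1 / da n := by positivity
  refine ⟨by linarith, by linarith, by linarith, by linarith⟩

theorem slope_bounds {k : ℕ} (hk : k < n) {t : ℝ} (ht0 : 0 ≤ t) (ht1 : t ≤ 1) :
    0 ≤ dG n * k + t ∧ dG n * k + t ≤ dG n * da n / 2 := by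
  have hG := dG_ge (n := n)
  have hk0 : (0 : ℝ) ≤ k := by positivity
  have hkn : (k : ℝ) + 1 ≤ n := by exact_mod_cast hk
  constructor
  · have : 0 ≤ dG n * k := by nlinarith
    linarith
  · have e : dG n * da n / 2 = dG n * (n + 1) := by unfold da; ring
    rw [e]
    nlinarith

theorem GaR (hn : 2 ≤ n) : 6000 ≤ dG n * da n ∧ dR n = 10 * (dG n * da n) := by
  have h7 := dG_ge (n := n)
  have h8 := da_ge hn
  constructor
  · nlinarith
  · unfold dR; ring

theorem hitH (hn : 2 ≤ n) {m : ℕ} {α β s t D : ℝ} (hs : s ^ 2 ≤ 1) (ht : t ^ 2 ≤ 1)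
    (hα0 : 0 ≤ α) (hα : α ≤ dG n * da n / 2) (hD : α + β = dw n m + D)
    (hD2 : D ≤ -dδ n ∨ 2 ≤ D) :
    ∃ z : ℝ, (-(dR n * s ^ 2) + α * z) + (-t ^ 2 + β * z) = dC n m + dw n m * z ∧
      -(2 * dC n m / dδ n) ≤ z ∧ z ≤ dC n m ∧ |-(dR n * s ^ 2) + α * z| ≤ dD n m := by
  obtain ⟨hGa, hRe⟩ := GaR hn
  have hC0 := dC_pos (n := n) m
  have hC := dC_ge (n := n) m
  have hδ := dδ_pos (n := n)
  have hδ1 := dδ_le (n := n)
  have hR0 := dR_pos (n := n)
  set C := dC n m with hCdef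
  set R := dR n with hRdef
  set δ := dδ n with hδdef
  have hs0 := sq_nonneg s
  have ht0 := sq_nonneg t
  have hRs : R * s ^ 2 ≤ R := by nlinarith
  have hRs0 : 0 ≤ R * s ^ 2 := by positivity
  have hCR : 20 * 6000 * R ≤ C := by
    have h1 : 20 * (dG n * da n) * R ≤ C := by linarith
    have h2 : 20 * 6000 * R ≤ 20 * (dG n * da n) * R :=
      mul_le_mul_of_nonneg_right (by linarith) hR0.le
    linarith
  have hR1 : 1 ≤ R := by rw [hRe]; linarith
  set T := C + R * s ^ 2 + t ^ 2 with hT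
  have hT0 : 0 < T := by linarith
  have hT2 : T ≤ 2 * C := by linarith
  have hD0 : D ≠ 0 := by
    rcases hD2 with h | h
    · linarith
    · linarith
  have hDz : D * (T / D) = T := by field_simp
  have hzb : |T / D| ≤ 2 * C / δ := by
    rw [abs_div, abs_of_pos hT0]
    have h1 : δ ≤ |D| := by
      rcases hD2 with h | h
      · rw [abs_of_neg (by linarith)]; linarith
      · rw [abs_of_pos (by linarith)]; linarith
    exact div_le_div₀ (by linarith) hT2 hδ h1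
  refine ⟨T / D, ?_, ?_, ?_, ?_⟩
  · have h1 : (-(R * s ^ 2) + α * (T / D)) + (-t ^ 2 + β * (T / D)) =
        -(R * s ^ 2) - t ^ 2 + (α + β) * (T / D) := by ring
    rw [h1, hD, add_mul, hDz, hT]
    ring
  · exact (abs_le.1 hzb).1
  · rcases hD2 with h | h
    · have : T / D ≤ 0 := div_nonpos_of_nonneg_of_nonpos hT0.le (by linarith)
      linarith
    · rw [div_le_iff₀ (by linarith)]
      nlinarith
  · have h1 : |-(R * s ^ 2) + α * (T / D)| ≤ R + dG n * da n / 2 * (2 * C / δ) := by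
      refine (abs_add_le _ _).trans ?_
      rw [abs_neg, abs_of_nonneg hRs0, abs_mul, abs_of_nonneg hα0]
      exact add_le_add hRs (mul_le_mul hα hzb (abs_nonneg _) (by linarith))
    have h2 : dG n * da n / 2 * (2 * C / δ) = dG n * da n * (C / δ) := by ring
    have h3 : dD n m = 4 * (dG n * da n * (C / δ)) := by
      rw [hCdef, hδdef]; unfold dD; ring
    have h4 : C ≤ C / δ := by
      rw [le_div_iff₀ hδ]; nlinarith
    have h5 : 1 * (C / δ) ≤ dG n * da n * (C / δ) :=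
      mul_le_mul_of_nonneg_right (by linarith) (by positivity)
    rw [h3]
    rw [h2] at h1
    linarith

theorem sample_mem (hn : 2 ≤ n) {c : ℕ × ℕ × ℕ} (hc1 : c.1 < n)
    (hc2 : c.2.1 < n) (hi : c.2.2 + 1 < n) : sampleLine n c ∈ transversalSpace (dfam n M) := by
  obtain ⟨j, k, i⟩ := c
  simp only at hi hc1 hc2
  obtain ⟨hs0, hs1, ht0, ht1⟩ := smp_bounds hn hi
  obtain ⟨hGa, hRe⟩ := GaR hn
  have ha := da_ge hn
  have ha0 : 0 < da n := da_pos
  have hG0 : 0 < dG n := dG_pos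
  have hR0 : 0 < dR n := dR_pos
  have hδ0 : 0 < dδ n := dδ_pos
  have hδ1 := dδ_le (n := n)
  have hζ0 := dζ_pos (n := n)
  set s := dsmp n i with hs
  set t := 1 - dsmp n i - 2 * dδ n with ht
  have hst : s + t = 1 - 2 * dδ n := by rw [hs, ht]; ring
  obtain ⟨hα0, hα1⟩ := slope_bounds hc1 (t := s) (by linarith) (by linarith)
  obtain ⟨hβ0, hβ1⟩ := slope_bounds hc2 (t := t) (by linarith) (by linarith)
  have hs2 : s ^ 2 ≤ 9 / 16 := by nlinarith
  have ht2 : t ^ 2 ≤ 9 / 16 := by nlinarith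
  have hs3 : 1 / 16 ≤ s ^ 2 := by nlinarith
  have ht3 : 1 / 16 ≤ t ^ 2 := by nlinarith
  change lin (dG n * (j : ℝ) + s) (dG n * (k : ℝ) + t) (-(dR n * s ^ 2)) (-t ^ 2) ∈ _
  set α := dG n * (j : ℝ) + s with hα
  set β := dG n * (k : ℝ) + t with hβ
  rintro ((j' | k') | (l | m))
  · obtain ⟨η, h1, h2⟩ := hitP (n := n) (j := (j' : ℕ)) j'.2.le j hs0 hs1
    refine ⟨_, mem_lin α β (-(dR n * s ^ 2)) (-t ^ 2) (dR n * η), ?_⟩
    change PP n j' ((-(dR n * s ^ 2) + α * (dR n * η)) / dR n) (dR n * η / dR n) ∧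
      |-t ^ 2 + β * (dR n * η)| ≤ dE n
    have e1 : (-(dR n * s ^ 2) + α * (dR n * η)) / dR n = -s ^ 2 + α * η := by
      field_simp
    have e2 : dR n * η / dR n = η := by field_simp
    rw [e1, e2]
    refine ⟨h1, ?_⟩
    refine (abs_add_le _ _).trans ?_
    rw [abs_neg, abs_of_nonneg (sq_nonneg t), abs_mul, abs_of_nonneg hβ0, abs_mul,
      abs_of_pos hR0]
    have h3 : β * (dR n * |η|) ≤ dG n * da n / 2 * (dR n * (3 / 2)) :=
      mul_le_mul hβ1 (mul_le_mul_of_nonneg_left h2 hR0.le)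
        (mul_nonneg hR0.le (abs_nonneg _)) (by linarith)
    have h4 : dE n = 2 * (dG n * da n * dR n) := by unfold dE; ring
    have h5 : 1 ≤ dG n * da n * dR n := by rw [hRe]; nlinarith
    rw [h4]; nlinarith
  · obtain ⟨z, h1, h2⟩ := hitP (n := n) (j := (k' : ℕ)) k'.2.le k ht0 ht1
    refine ⟨_, mem_lin α β (-(dR n * s ^ 2)) (-t ^ 2) z, ?_⟩
    change PP n k' (-t ^ 2 + β * z) z ∧ |-(dR n * s ^ 2) + α * z| ≤ 2 * dR n
    refine ⟨h1, ?_⟩
    refine (abs_add_le _ _).trans ?_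
    rw [abs_neg, abs_of_nonneg (by positivity), abs_mul, abs_of_nonneg hα0]
    have h3 : α * |z| ≤ dG n * da n / 2 * (3 / 2) :=
      mul_le_mul hα1 h2 (abs_nonneg _) (by linarith)
    have h4 : dR n * s ^ 2 ≤ dR n := by nlinarith
    rw [hRe] at h4 ⊢
    linarith
  · refine ⟨_, mem_lin α β (-(dR n * s ^ 2)) (-t ^ 2) (dζ n * ((l : ℕ) : ℝ)), ?_⟩
    change dζ n * ((l : ℕ) : ℝ) = dζ n * ((l : ℕ) : ℝ) ∧
      (1 - dr n l) * ((-(dR n * s ^ 2) + α * (dζ n * ((l : ℕ) : ℝ))) / dR n) +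
        dr n l * (-t ^ 2 + β * (dζ n * ((l : ℕ) : ℝ))) + dr n l * (1 - dr n l) ≤ 0 ∧
      -dR n ≤ -(dR n * s ^ 2) + α * (dζ n * ((l : ℕ) : ℝ)) ∧
      -(dR n * s ^ 2) + α * (dζ n * ((l : ℕ) : ℝ)) ≤ 0 ∧
      -1 ≤ -t ^ 2 + β * (dζ n * ((l : ℕ) : ℝ)) ∧ -t ^ 2 + β * (dζ n * ((l : ℕ) : ℝ)) ≤ 0
    have hl0 : (0 : ℝ) ≤ ((l : ℕ) : ℝ) := by positivity
    have hla : ((l : ℕ) : ℝ) ≤ da n := by
      have : ((l : ℕ) : ℝ) + 1 ≤ n := by exact_mod_cast l.2
      unfold da; linarith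
    set y := dζ n * ((l : ℕ) : ℝ) with hy
    have hy0 : 0 ≤ y := mul_nonneg hζ0.le hl0
    have hya : y ≤ dζ n * da n := mul_le_mul_of_nonneg_left hla hζ0.le
    have hGy : dG n * da n * y ≤ 1 / (16 * da n ^ 3) := by
      have h1 : dG n * da n * y ≤ dG n * da n * (dζ n * da n) :=
        mul_le_mul_of_nonneg_left hya (by positivity)
      have h2 : dG n * da n * (dζ n * da n) = 1 / (16 * da n ^ 3) := by
        unfold dζ; field_simp
      rw [h2] at h1; exact h1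
    have h216 : 1 / (16 * da n ^ 3) ≤ 1 / 16 := by
      apply one_div_le_one_div_of_le (by norm_num)
      have : 1 ≤ da n ^ 3 := one_le_pow₀ (by linarith)
      linarith
    have hαy : α * y ≤ dG n * da n * y / 2 := by
      have := mul_le_mul_of_nonneg_right hα1 hy0
      linarith
    have hβy : β * y ≤ dG n * da n * y / 2 := by
      have := mul_le_mul_of_nonneg_right hβ1 hy0
      linarith
    have hαy0 : 0 ≤ α * y := mul_nonneg hα0 hy0
    have hβy0 : 0 ≤ β * y := mul_nonneg hβ0 hy0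
    have hRs : dR n * s ^ 2 ≤ dR n := by nlinarith
    have hRs3 : dR n * (1 / 16) ≤ dR n * s ^ 2 := mul_le_mul_of_nonneg_left hs3 hR0.le
    have hl : 1 / (2 * da n) ≤ |s - dr n l| := by
      have h0 : 0 < 1 / (2 * da n) := by positivity
      rcases le_or_gt (l : ℕ) i with h | h
      · have h1 : dr n l ≤ dr n i := by
          have : ((l : ℕ) : ℝ) ≤ i := by exact_mod_cast h
          have := div_le_div_of_nonneg_right (by linarith : ((l : ℕ) : ℝ) + 1 ≤ i + 1) ha0.le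
          unfold dr; linarith
        have h2 := smp_mid (n := n) i
        rw [← hs] at h2
        rw [abs_of_nonneg (by linarith)]
        linarith
      · have h1 : dr n (i + 1) ≤ dr n l := by
          have : (i : ℝ) + 1 ≤ ((l : ℕ) : ℝ) := by exact_mod_cast h
          have := div_le_div_of_nonneg_right
            (by push_cast; linarith : (((i + 1 : ℕ) : ℝ) + 1) ≤ ((l : ℕ) : ℝ) + 1) ha0.le
          unfold dr; linarith
        have h2 := smp_mid' (n := n) i
        rw [← hs] at h2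
        rw [abs_of_nonpos (by linarith)]
        linarith
    have hr0 := dr_pos (n := n) l
    have hrl := dr_lt (n := n) l.2
    have h1a : 0 < 1 / da n := by positivity
    have hm := marg (h := 1 / (8 * da n ^ 3)) (by linarith : 3 ≤ da n)
      (rfl : dδ n = 1 / (16 * da n ^ 2)) rfl (by linarith : 0 < dr n l)
      (by linarith : 1 / da n ≤ 1 - dr n l) (by linarith : 0 < s) (t := t) (by rw [ht])
      (by linarith) hl
    have h38 : 1 / (16 * da n ^ 3) = 1 / (8 * da n ^ 3) / 2 := by field_simp; norm_num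
    have h80 : 0 < 1 / (8 * da n ^ 3) := by positivity
    refine ⟨rfl, ?_, by linarith, by nlinarith, by linarith, by linarith⟩
    have e : (-(dR n * s ^ 2) + α * y) / dR n = -s ^ 2 + α * y / dR n := by
      field_simp
    rw [e]
    have hR1 : 1 ≤ dR n := by rw [hRe]; linarith
    have h5 : α * y / dR n ≤ α * y := div_le_self hαy0 hR1
    have h50 : 0 ≤ α * y / dR n := div_nonneg hαy0 hR0.le
    have h6 : (1 - dr n l) * (α * y / dR n) ≤ 1 * (α * y / dR n) :=
      mul_le_mul_of_nonneg_right (by linarith) h50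
    have h7 : dr n l * (β * y) ≤ 1 * (β * y) :=
      mul_le_mul_of_nonneg_right (by linarith) hβy0
    nlinarith
  · have hw : α + β = dw n m + (dG n * (((j + k : ℕ) : ℝ) - ((m : ℕ) : ℝ)) - dδ n) := by
      rw [hα, hβ]; unfold dw; push_cast; linarith
    have hD2 : dG n * (((j + k : ℕ) : ℝ) - ((m : ℕ) : ℝ)) - dδ n ≤ -dδ n ∨
        2 ≤ dG n * (((j + k : ℕ) : ℝ) - ((m : ℕ) : ℝ)) - dδ n := by
      rcases le_or_gt (j + k) (m : ℕ) with h | h
      · left
        have h1 : ((j + k : ℕ) : ℝ) ≤ ((m : ℕ) : ℝ) := by exact_mod_cast h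
        nlinarith
      · right
        have h1 : ((m : ℕ) : ℝ) + 1 ≤ ((j + k : ℕ) : ℝ) := by exact_mod_cast h
        have := dG_ge (n := n)
        nlinarith
    obtain ⟨z, h1, h2, h3, h4⟩ := hitH hn (m := (m : ℕ)) (s := s) (t := t) (by linarith)
      (by linarith) hα0 hα1 hw hD2
    exact ⟨_, mem_lin α β (-(dR n * s ^ 2)) (-t ^ 2) z, h1, h2, h3, h4⟩

end Pool.Agent.H44.TD
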