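import Pool.Agent.H44.TD.Def
import Pool.Agent.H44.TB.Str

set_option autoImplicit false

/-!
# [H44 TD Str] A transversal with direction in a closed cone has it in the open cone (MP_ce02af_co, disjoint sets)

Adapted from `CubicLowerBound` (helper34).
-/

namespace Pool.Agent.H44.TD

open Pool.Agent.H44.TB (E3 Line3 transversalSpace dirSet ext3 line_coords pt Idx tangent_gap edge_gap)

variable {n M : ℕ}

/-- The closed cone of directions. -/
def coneCl (n : ℕ) (c : ℕ × ℕ × ℕ) : Set E3 :=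
  {v | 0 ≤ v 2 ∧ (dG n * c.1 + dr n c.2.2) * v 2 ≤ v 0 ∧
    v 0 ≤ (dG n * c.1 + dr n (c.2.2 + 1)) * v 2 ∧
    dG n * c.2.1 * v 2 ≤ v 1 ∧ v 0 + v 1 ≤ (dG n * (c.1 + c.2.1) + 1 - dδ n) * v 2}

/-- The open cone of directions. -/
def coneOp (n : ℕ) (c : ℕ × ℕ × ℕ) : Set E3 :=
  {v | 0 < v 2 ∧ (dG n * c.1 + dr n c.2.2) * v 2 < v 0 ∧
    v 0 < (dG n * c.1 + dr n (c.2.2 + 1)) * v 2 ∧
    dG n * c.2.1 * v 2 < v 1 ∧ v 0 + v 1 < (dG n * (c.1 + c.2.1) + 1 - dδ n) * v 2}

theorem mem_coneCl {c : ℕ × ℕ × ℕ} {v : E3} : v ∈ coneCl n c ↔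
  0 ≤ v 2 ∧ (dG n * c.1 + dr n c.2.2) * v 2 ≤ v 0 ∧
    v 0 ≤ (dG n * c.1 + dr n (c.2.2 + 1)) * v 2 ∧
    dG n * c.2.1 * v 2 ≤ v 1 ∧ v 0 + v 1 ≤ (dG n * (c.1 + c.2.1) + 1 - dδ n) * v 2 := Iff.rfl

theorem mem_coneOp {c : ℕ × ℕ × ℕ} {v : E3} : v ∈ coneOp n c ↔
  0 < v 2 ∧ (dG n * c.1 + dr n c.2.2) * v 2 < v 0 ∧
    v 0 < (dG n * c.1 + dr n (c.2.2 + 1)) * v 2 ∧
    dG n * c.2.1 * v 2 < v 1 ∧ v 0 + v 1 < (dG n * (c.1 + c.2.1) + 1 - dδ n) * v 2 := Iff.rfl

theorem coneOp_subset (c : ℕ × ℕ × ℕ) : coneOp n c ⊆ coneCl n c := fun _ h =>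
  ⟨h.1.le, h.2.1.le, h.2.2.1.le, h.2.2.2.1.le, h.2.2.2.2.le⟩

/-- A transversal whose direction lies in the closed cone has its direction in the open cone. -/
theorem strict (hn : 2 ≤ n) (hM : 2 * n ≤ M + 1) {j k i : ℕ} (hj : j < n) (hk : k < n)
    (hi : i + 1 < n) {L : Line3} (hL : L ∈ transversalSpace (dfam n M)) {v : E3}
    (hv : v ∈ L.1.direction) (hv0 : v ≠ 0) (hvc : v ∈ coneCl n (j, k, i)) :
    v ∈ coneOp n (j, k, i) := by
  rw [mem_coneCl] at hvc
  obtain ⟨h2, hA, hB, hC, hD⟩ := hvc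
  simp only at hA hB hC hD
  have hv2 : 0 < v 2 := by
    rcases h2.lt_or_eq with h | h
    · exact h
    · exfalso
      rw [← h] at hA hB hC hD
      simp only [mul_zero] at hA hB hC hD
      apply hv0
      apply ext3
      · simp; linarith
      · simp; linarith
      · simp [← h]
  obtain ⟨p, q, hpq⟩ := line_coords L hv hv2
  -- slopes
  set α := v 0 / v 2 with hα
  set β := v 1 / v 2 with hβ
  have eα : v 0 = α * v 2 := by rw [hα]; field_simp
  have eβ : v 1 = β * v 2 := by rw [hβ]; field_simp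
  set s := α - dG n * j with hs
  set t := β - dG n * k with ht
  set a := da n with ha
  set δ := dδ n with hδ
  set R := dR n with hR
  set ε : ℝ := 1 / (16 * a ^ 3) with hε
  have ha3 : 3 ≤ a := by linarith [da_ge hn]
  have ha0 : 0 < a := by linarith
  have hG0 : 0 < dG n := dG_pos
  have hR0 : 0 < R := dR_pos
  have hδ0 : 0 < δ := dδ_pos
  have hj0 : (0 : ℝ) ≤ j := by positivity
  have hk0 : (0 : ℝ) ≤ k := by positivity
  have hA' : dr n i ≤ s := by
    rw [eα] at hA
    have := le_of_mul_le_mul_right hA hv2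
    rw [hs]; linarith
  have hB' : s ≤ dr n (i + 1) := by
    rw [eα] at hB
    have := le_of_mul_le_mul_right hB hv2
    rw [hs]; linarith
  have hC' : 0 ≤ t := by
    rw [eβ] at hC
    have := le_of_mul_le_mul_right hC hv2
    rw [ht]; linarith
  have hD' : s + t ≤ 1 - δ := by
    rw [eα, eβ, ← add_mul] at hD
    have := le_of_mul_le_mul_right hD hv2
    rw [hs, ht]; linarith
  have hr14 : ∀ l : ℕ, 1 / 4 < dr n l := fun l => dr_pos l
  have hrg : ∀ l : ℕ, l < n → 1 / a ≤ 1 - dr n l := fun l hl => by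
    have := dr_lt (n := n) hl
    linarith
  have hs0 : 0 < s := by linarith [hr14 i]
  have hs1 : s ≤ 1 := by linarith
  have ht1 : t ≤ 1 := by linarith
  have hα0 : 0 ≤ α := by
    have : 0 ≤ dG n * j := by positivity
    rw [hs] at hs0; linarith
  have hβ0 : 0 ≤ β := by
    have : 0 ≤ dG n * k := by positivity
    rw [ht] at hC'; linarith
  -- constraint from the first portion
  have cA : -(s ^ 2) ≤ p / R := by
    obtain ⟨x, hxL, hx⟩ := hL (Sum.inl (Sum.inl ⟨j, hj⟩))
    have hx' : (x 2 / R) ^ 2 / 4 ≤ x 0 / R - dG n * (j : ℝ) * (x 2 / R) := hx.1.2.1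
    have := (hpq x hxL).1
    rw [this] at hx'
    have h := sq_nonneg (x 2 / R / 2 - s)
    have e : (p + α * x 2) / R = p / R + α * (x 2 / R) := by ring
    rw [e] at hx'
    rw [hs] at h ⊢
    nlinarith
  have cB : -(t ^ 2) ≤ q := by
    obtain ⟨x, hxL, hx⟩ := hL (Sum.inl (Sum.inr ⟨k, hk⟩))
    have hx' : (x 2) ^ 2 / 4 ≤ x 1 - dG n * (k : ℝ) * x 2 := hx.1.2.1
    have := (hpq x hxL).2
    rw [this] at hx'
    have h := sq_nonneg (x 2 / 2 - t)
    rw [ht] at h ⊢
    nlinarith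
  -- constraint from the flat sets
  have cF : ∀ l : ℕ, l < n →
      (1 - dr n l) * (p / R) + dr n l * q + dr n l * (1 - dr n l) ≤ 0 := by
    intro l hl
    obtain ⟨x, hxL, hx⟩ := hL (Sum.inr (Sum.inl ⟨l, hl⟩))
    obtain ⟨e0, e1⟩ := hpq x hxL
    have hr0 : 0 < dr n l := by linarith [hr14 l]
    have hr2 : 0 < 1 - dr n l := lt_of_lt_of_le (by positivity) (hrg l hl)
    have hz : x 2 = dζ n * (l : ℝ) := hx.1
    have hz0 : 0 ≤ x 2 := by
      rw [hz]; exact mul_nonneg dζ_pos.le (Nat.cast_nonneg l)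
    have hx2 : (1 - dr n l) * (x 0 / R) + dr n l * x 1 + dr n l * (1 - dr n l) ≤ 0 := hx.2.1
    rw [e0, e1] at hx2
    have e : (p + α * x 2) / R = p / R + α / R * x 2 := by ring
    rw [e] at hx2
    have h1 : 0 ≤ (1 - dr n l) * (α / R * x 2) :=
      mul_nonneg hr2.le (mul_nonneg (div_nonneg hα0 hR0.le) hz0)
    have h3 : 0 ≤ dr n l * (β * x 2) := mul_nonneg hr0.le (mul_nonneg hβ0 hz0)
    nlinarith
  have cF' : ∀ l : ℕ, l < n → 1 - ε ≤ s ^ 2 / dr n l + t ^ 2 / (1 - dr n l) := by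
    intro l hl
    have h := cF l hl
    have hr0 : 0 < dr n l := by linarith [hr14 l]
    have hr2 : 0 < 1 - dr n l := lt_of_lt_of_le (by positivity) (hrg l hl)
    have hε0 : 0 < ε := by rw [hε]; positivity
    have h1 : 1 ≤ s ^ 2 / dr n l + t ^ 2 / (1 - dr n l) := by
      rw [div_add_div _ _ hr0.ne' hr2.ne', le_div_iff₀ (mul_pos hr0 hr2)]
      have h2 := mul_le_mul_of_nonneg_left cA hr2.le
      have h3 := mul_le_mul_of_nonneg_left cB hr0.le
      linarith
    linarith
  have hin : i < n := by omega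
  -- strictness at the two ends
  have sA : dr n i < s := by
    rcases hA'.lt_or_eq with h | h
    · exact h
    · exfalso
      have := cF' i hin
      rw [← h] at this hD'
      exact tangent_gap ha3 hδ rfl (by linarith [hr14 i]) (hrg i hin) hC' hD' this
  have sB : s < dr n (i + 1) := by
    rcases hB'.lt_or_eq with h | h
    · exact h
    · exfalso
      have := cF' (i + 1) hi
      rw [h] at this hD'
      exact tangent_gap ha3 hδ rfl (by linarith [hr14 (i + 1)]) (hrg (i + 1) hi) hC' hD' this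
  have sC : 0 < t := by
    rcases hC'.lt_or_eq with h | h
    · exact h
    · exfalso
      have := cF' (i + 1) hi
      rw [← h] at this
      simp only [ne_eq, OfNat.ofNat_ne_zero, not_false_eq_true, zero_pow, zero_div,
        add_zero] at this
      exact edge_gap ha3 rfl (by linarith [hr14 (i + 1)]) (hrg (i + 1) hi) hs0.le hB' this
  have sD : s + t < 1 - δ := by
    rcases hD'.lt_or_eq with h | h
    · exact h
    · exfalso
      have hm : j + k < M := by omega
      obtain ⟨x, hxL, hx⟩ := hL (Sum.inr (Sum.inr ⟨j + k, hm⟩))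
      obtain ⟨e0, e1⟩ := hpq x hxL
      have hx1 : x 0 + x 1 = dC n (j + k) + (dG n * ((j + k : ℕ) : ℝ) + 1 - δ) * x 2 := hx.1
      have hsum : α + β = dG n * ((j + k : ℕ) : ℝ) + 1 - δ := by
        rw [hs, ht] at h; push_cast; linarith
      rw [e0, e1, ← hsum] at hx1
      have h1 : p + q = dC n (j + k) := by linarith
      have h4 := cF 0 (by omega)
      have hr0 := hr14 0
      have hr2 : 1 / 4 ≤ 1 - dr n 0 := by
        have h5 := dr_lt (n := n) (l := 0) (by omega)
        have h6 : 0 < 1 / da n := by positivity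
        linarith
      have hp : -1 ≤ p / R := by nlinarith
      have hq : -1 ≤ q := by nlinarith
      have hC := dC_ge (n := n) (j + k)
      have hGa : 6000 ≤ dG n * a := by
        have h7 := dG_ge (n := n)
        have h8 := da_ge hn
        nlinarith
      have h9 : 20 * (dG n * a) ≤ dC n (j + k) / R := by
        rw [le_div_iff₀ hR0]; linarith
      have hR1 : 1 ≤ R := by
        have : R = 10 * (dG n * a) := by rw [hR, ha]; unfold dR; ring
        rw [this]; linarith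
      have h10 : p / R + q / R = dC n (j + k) / R := by rw [← h1]; ring
      have h11 : q / R ≤ q + 2 := by
        rw [div_le_iff₀ hR0]; nlinarith
      nlinarith
  -- conclude
  rw [mem_coneOp]
  simp only
  refine ⟨hv2, ?_, ?_, ?_, ?_⟩
  · rw [eα]; apply mul_lt_mul_of_pos_right _ hv2; rw [hs] at sA; linarith
  · rw [eα]; apply mul_lt_mul_of_pos_right _ hv2; rw [hs] at sB; linarith
  · rw [eβ]; apply mul_lt_mul_of_pos_right _ hv2; rw [ht] at sC; linarith
  · rw [eα, eβ, ← add_mul]; apply mul_lt_mul_of_pos_right _ hv2; rw [hs, ht] at sD; linarith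

end Pool.Agent.H44.TD
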